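import Mathlib
import Pool.Agent.H687R3.MC.Final

/-!
The monoid free product of a free monoid and a virtually nilpotent group is Malcev coherent.
-/

namespace Pool.Agent.Results.MP_e5a626_al.VirtuallyNilpotentFactor

open Pool.Agent.Helper45

universe u v

/-- For every free monoid `F` (on an arbitrary alphabet) and every virtually nilpotent group `G`,
the monoid free product of `F` and `G` is Malcev coherent: each of its finitely generated
subsemigroups has a finite Malcev presentation. -/
theorem result (X : Type u) (G : Type v) [Group G]
    (hG : ∃ K : Subgroup G, K.FiniteIndex ∧ Group.IsNilpotent K) :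
    MalcevCoherent (Monoid.Coprod (FreeMonoid X) G) :=
  Pool.Agent.H687R3.MC.malcevCoherent_coprod X G hG

end Pool.Agent.Results.MP_e5a626_al.VirtuallyNilpotentFactor
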